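import Pool.Agent.Q147.SH.RK

/-!
# Job SH-APB: basic properties of the approximation numbers
-/

set_option autoImplicit false

open Filter Topology
open scoped ENNReal

namespace Pool.Agent.Q147.SH

open Pool.Agent.Q66.SH

section
variable {H : Type} [NormedAddCommGroup H] [InnerProductSpace ℂ H]

theorem apx_le {n : ℕ} {T F : H →L[ℂ] H} (hF : RankLE F n) : apx n T ≤ ‖T - F‖ₑ :=
  iInf₂_le F hF

theorem le_apx {n : ℕ} {T : H →L[ℂ] H} {c : ℝ≥0∞}
    (h : ∀ F : H →L[ℂ] H, RankLE F n → c ≤ ‖T - F‖ₑ) : c ≤ apx n T :=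
  le_iInf₂ h

theorem apx_mul (n : ℕ) (A S B : H →L[ℂ] H) (hA : ‖A‖ ≤ 1) (hB : ‖B‖ ≤ 1) :
    apx n (A * S * B) ≤ apx n S := by
  refine le_apx fun F hF => ?_
  refine (apx_le (rank_mul A B hF)).trans ?_
  have h1 : A * S * B - A * F * B = A * (S - F) * B := by
    rw [mul_sub, sub_mul]
  rw [h1, enorm_le_iff_norm_le]
  calc ‖A * (S - F) * B‖ ≤ ‖A * (S - F)‖ * ‖B‖ := norm_mul_le _ _
    _ ≤ (‖A‖ * ‖S - F‖) * ‖B‖ := by gcongr; exact norm_mul_le _ _
    _ ≤ (1 * ‖S - F‖) * 1 := by gcongr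
    _ = ‖S - F‖ := by ring

theorem rank_zero_eq {F : H →L[ℂ] H} (hF : RankLE F 0) : F = 0 := by
  obtain ⟨W, hW, h0, hF⟩ := hF
  have hb : W = ⊥ := by
    apply Submodule.finrank_eq_zero.mp
    omega
  ext x
  have := hF x
  rw [hb] at this
  simpa using this

theorem rank_zero (n : ℕ) : RankLE (0 : H →L[ℂ] H) n :=
  ⟨⊥, inferInstance, by simp, fun x => by simp⟩

theorem apx_zero (T : H →L[ℂ] H) : apx 0 T = ‖T‖ₑ := by
  apply le_antisymm
  · have := apx_le (T := T) (rank_zero (H := H) 0)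
    simpa using this
  · refine le_apx fun F hF => ?_
    rw [rank_zero_eq hF, sub_zero]

theorem apx_antitone (T : H →L[ℂ] H) : Antitone (fun n => apx n T) := by
  intro m n hmn
  exact le_apx fun F hF => apx_le (rank_mono hF hmn)

theorem apx_eq_zero {T : H →L[ℂ] H} {k n : ℕ} (hT : RankLE T k) (hkn : k ≤ n) : apx n T = 0 := by
  have := apx_le (T := T) (rank_mono hT hkn)
  rw [sub_self] at this
  have h0 : ‖(0 : H →L[ℂ] H)‖ₑ = 0 := by
    rw [← ofReal_norm]
    simp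
  rw [h0] at this
  exact le_antisymm this bot_le

end

theorem t_APB : S_APB := by
  intro H _ _ _
  exact ⟨fun n A S B hA hB => apx_mul n A S B hA hB, apx_zero, apx_antitone,
    fun T k n h h' => apx_eq_zero h h'⟩

end Pool.Agent.Q147.SH
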