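import Pool.Agent.Q66.SH.Stm

/-!
# Job SH-RK: ranks
-/

set_option autoImplicit false

open Filter Topology
open scoped ENNReal

namespace Pool.Agent.Q147.SH

open Pool.Agent.Q66.SH

section
variable {H : Type} [NormedAddCommGroup H] [InnerProductSpace ℂ H]

theorem rank_mul {k : ℕ} (A : H →L[ℂ] H) {S : H →L[ℂ] H} (B : H →L[ℂ] H) (h : RankLE S k) :
    RankLE (A * S * B) k := by
  obtain ⟨W, hW, hk, hS⟩ := h
  refine ⟨W.map (A : H →ₗ[ℂ] H), inferInstance, ?_, ?_⟩
  · exact (Submodule.finrank_map_le _ _).trans hk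
  · intro x
    exact Submodule.mem_map_of_mem (f := (A : H →ₗ[ℂ] H)) (hS (B x))

theorem rank_add {k l : ℕ} {S T : H →L[ℂ] H} (h : RankLE S k) (h' : RankLE T l) :
    RankLE (S + T) (k + l) := by
  obtain ⟨W, hW, hk, hS⟩ := h
  obtain ⟨W', hW', hl, hT⟩ := h'
  refine ⟨W ⊔ W', inferInstance, ?_, ?_⟩
  · exact (Submodule.finrank_add_le_finrank_add_finrank W W').trans (Nat.add_le_add hk hl)
  · intro x
    exact Submodule.add_mem_sup (hS x) (hT x)

theorem rank_mono {k l : ℕ} {S : H →L[ℂ] H} (h : RankLE S k) (hkl : k ≤ l) : RankLE S l := by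
  obtain ⟨W, hW, hk, hS⟩ := h
  exact ⟨W, hW, hk.trans hkl, hS⟩

theorem rank_neg {k : ℕ} {S : H →L[ℂ] H} (h : RankLE S k) : RankLE (-S) k := by
  obtain ⟨W, hW, hk, hS⟩ := h
  exact ⟨W, hW, hk, fun x => W.neg_mem (hS x)⟩

theorem rank_rk1 (u v : H) : RankLE (rk1 u v) 1 := by
  refine ⟨Submodule.span ℂ {v}, inferInstance, ?_, ?_⟩
  · have h := finrank_span_le_card (R := ℂ) ({v} : Set H)
    simpa using h
  · intro x
    exact Submodule.smul_mem _ _ (Submodule.mem_span_singleton_self v)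

end

theorem t_RK : S_RK := by
  intro H _ _ _
  exact ⟨fun _ A _ B h => rank_mul A B h, fun _ _ _ _ h h' => rank_add h h',
    fun _ _ _ h h' => rank_mono h h', fun _ _ h => rank_neg h, rank_rk1⟩

end Pool.Agent.Q147.SH
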